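import Pool.Agent.H57.BD.Stmts

/-! Boolean dimension, block C: module COL (helper5). -/

set_option autoImplicit false

namespace Pool.BD

namespace COL

theorem lex_lt {M x y u v : ℕ} (_hu : u < M) (hv : v < M) (h : x * M + u < y * M + v) :
    x < y ∨ (x = y ∧ u < v) := by
  rcases lt_trichotomy x y with h1 | h1 | h1
  · exact Or.inl h1
  · subst h1
    exact Or.inr ⟨rfl, by omega⟩
  · exfalso
    have h2 : (y + 1) * M ≤ x * M := Nat.mul_le_mul_right M h1
    rw [Nat.add_mul, Nat.one_mul] at h2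
    omega

theorem lt_lex {M x y u v : ℕ} (hu : u < M) (h : x < y ∨ (x = y ∧ u < v)) :
    x * M + u < y * M + v := by
  rcases h with h1 | ⟨h1, h2⟩
  · have h2 : (x + 1) * M ≤ y * M := Nat.mul_le_mul_right M h1
    rw [Nat.add_mul, Nat.one_mul] at h2
    omega
  · subst h1
    omega

theorem eq_lex {M x y u v : ℕ} (hu : u < M) (hv : v < M) (h : x * M + u = y * M + v) :
    x = y ∧ u = v := by
  rcases lt_trichotomy x y with h1 | h1 | h1
  · have := lt_lex (v := v) hu (Or.inl h1)
    omega
  · subst h1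
    exact ⟨rfl, by omega⟩
  · have := lt_lex (v := u) hv (Or.inl h1)
    omega

end COL

open COL in
theorem col (h : COLDStmt) : COLStmt := by
  intro ι _ s t r htinj hst htr hU hV
  have hN : ∃ N : ℕ, ∀ i, t i ≤ N := by
    cases nonempty_fintype ι
    refine ⟨∑ i, t i, fun i => ?_⟩
    exact Finset.single_le_sum (f := t) (fun i _ => Nat.zero_le _) (Finset.mem_univ i)
  obtain ⟨N, hN⟩ := hN
  obtain ⟨M, hM⟩ : ∃ M : ℕ, M = 2 * N + 3 := ⟨_, rfl⟩
  obtain ⟨s', hs'⟩ : ∃ s' : ι → ℕ, ∀ i, s' i = s i * M + (N - t i) := ⟨_, fun _ => rfl⟩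
  obtain ⟨t', ht'⟩ : ∃ t' : ι → ℕ, ∀ i, t' i = t i * M + (N + 1) := ⟨_, fun _ => rfl⟩
  obtain ⟨r', hr'⟩ : ∃ r' : ι → ℕ, ∀ i, r' i = r i * M + (N + 2 + (N - t i)) := ⟨_, fun _ => rfl⟩
  have hb1 : ∀ i, N - t i < M := fun i => by omega
  have hb2 : N + 1 < M := by omega
  have hb3 : ∀ i, N + 2 + (N - t i) < M := fun i => by omega
  have hit : Items ι s' t' r' := by
    refine ⟨?_, ?_, ?_, ?_, ?_, ?_, ?_, ?_, ?_, ?_⟩
    · intro i
      rw [hs', ht']
      apply lt_lex (hb1 i)
      rcases Nat.lt_or_eq_of_le (hst i) with h1 | h1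
      · exact Or.inl h1
      · exact Or.inr ⟨h1, by omega⟩
    · intro i
      rw [hr', ht']
      apply lt_lex hb2
      rcases Nat.lt_or_eq_of_le (htr i) with h1 | h1
      · exact Or.inl h1
      · exact Or.inr ⟨h1, by omega⟩
    · intro i j hij
      rw [hs', hs'] at hij
      have := eq_lex (hb1 i) (hb1 j) hij
      have h1 := hN i
      have h2 := hN j
      exact htinj (by omega)
    · intro i j hij
      rw [ht', ht'] at hij
      exact htinj (eq_lex hb2 hb2 hij).1
    · intro i j hij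
      rw [hr', hr'] at hij
      have := eq_lex (hb3 i) (hb3 j) hij
      have h1 := hN i
      have h2 := hN j
      exact htinj (by omega)
    · intro i j hij
      rw [hs', ht'] at hij
      have := eq_lex (hb1 i) hb2 hij
      omega
    · intro i j hij
      rw [hs', hr'] at hij
      have := eq_lex (hb1 i) (hb3 j) hij
      omega
    · intro i j hij
      rw [ht', hr'] at hij
      have := eq_lex hb2 (hb3 j) hij
      omega
    · intro i j h1 h2 h3
      rw [hs', hs'] at h1
      rw [hs', ht'] at h2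
      rw [ht', ht'] at h3
      have e1 := lex_lt (hb1 i) (hb1 j) h1
      have e2 := lex_lt (hb1 j) hb2 h2
      have e3 := lex_lt hb2 hb2 h3
      have h4 : t i < t j := by omega
      have h5 : s i < s j := by
        rcases e1 with h | h
        · exact h
        · omega
      exact hU i j h4 h5 (by omega)
    · intro i j h1 h2 h3
      rw [ht', ht'] at h1
      rw [ht', hr'] at h2
      rw [hr', hr'] at h3
      have e1 := lex_lt hb2 hb2 h1
      have e2 := lex_lt hb2 (hb3 i) h2
      have e3 := lex_lt (hb3 i) (hb3 j) h3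
      have h4 : t i < t j := by omega
      have h5 := hV i j h4 (by omega)
      omega
  obtain ⟨c, hc⟩ := h ι s' t' r' hit
  refine ⟨c, fun i j h1 h2 h3 => hc i j ?_ ?_ ?_⟩
  · rw [ht', hs']
    exact lt_lex hb2 (Or.inl h1)
  · rw [hs', hr']
    apply lt_lex (hb1 j)
    rcases Nat.lt_or_eq_of_le h2 with h4 | h4
    · exact Or.inl h4
    · exact Or.inr ⟨h4, by omega⟩
  · rw [ht', hr']
    exact lt_lex (hb3 i) (Or.inl h3)

end Pool.BD
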