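import Pool.Agent.H5.BD.RCH

/-! Boolean dimension, block N: module K0 (helper5). -/

set_option autoImplicit false

namespace Pool.BD

open Relation

theorem k0 (h1 : RCH) : K0 := by
  intro V G rk H q Q L R b hN hS
  obtain ⟨hb, hbq, hS3⟩ := hS
  constructor
  · rintro u ⟨hu, hub⟩ hlt
    by_cases hne : u = b
    · subst hne
      have := hN.ok.isL.lh u hu
      omega
    · have h2 := (h1 V G rk H q Q L R hN u hu b hb hne hub).1
      have := hN.ok.isL.lh b hb
      omega
  · rintro x ⟨hx, hxb⟩ y ⟨hy, hyb⟩ ha hp
    have hd := RCH.dn_head hN.ok hx hy ha hp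
    have hdn := hN.ok.isL.dn _ _ hd
    by_cases hne : y = b
    · subst hne
      exact hdn.1
    · have h2 := (h1 V G rk H q Q L R hN y hy b hb hne hyb).1
      have h3 := Re.rank_lt hyb hne
      rcases hN.ok.isL.tri hN.ok.parL y hy b hb with h5 | h5 | h5 | h5
      · have h6 := hN.ok.isL.anc_block h5 hne
        exact hS3 x hx y hy ha hp h6.1 h6.2
      · have := Anc.rank hN.ok.parL h5
        omega
      · have := hN.ok.isL.lh b hb
        omega
      · have := hN.ok.isL.lh b hb
        omega

end Pool.BD
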