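import Pool.Agent.H57.BD.Stmts

/-! Boolean dimension, block C: module OUTP (helper5). -/

set_option autoImplicit false

namespace Pool.BD

namespace OUTP

theorem third (a b : Fin 3) : ∃ c : Fin 3, c ≠ a ∧ c ≠ b := by
  revert a b
  decide

theorem claim (P : ℕ → ℕ → Prop) (h1 : ∀ i j, P i j → i < j)
    (h2 : ∀ i j i' j', P i j → P i' j' → i < i' → i' < j → j < j' → False) :
    ∀ n i j : ℕ, j = i + (n + 1) → ∀ a b : Fin 3, a ≠ b →
      ∃ k : ℕ → Fin 3, k i = a ∧ k j = b ∧ ∀ p q, P p q → i ≤ p → q ≤ j → k p ≠ k q := by
  intro n
  induction n using Nat.strong_induction_on with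
  | _ n ih =>
    intro i j hij a b hab
    by_cases hn : n = 0
    · subst hn
      refine ⟨fun x => if x = i then a else b, by simp, ?_, ?_⟩
      · simp only
        rw [if_neg (by omega)]
      · intro p q hp hip hq
        have := h1 p q hp
        have e1 : p = i := by omega
        have e2 : q ≠ i := by omega
        simp only
        rw [if_pos e1, if_neg e2]
        exact hab
    · classical
      obtain ⟨m, him, hmj, hm⟩ : ∃ m, i < m ∧ m < j ∧
          ((P i m ∧ ∀ m', m < m' → m' < j → ¬ P i m') ∨ (m = i + 1 ∧ ∀ m', i < m' → m' < j → ¬ P i m')) := by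
        by_cases hex : ∃ m, i < m ∧ m < j ∧ P i m
        · let S := (Finset.range j).filter (fun m => i < m ∧ P i m)
          have hS : S.Nonempty := by
            obtain ⟨m, hm1, hm2, hm3⟩ := hex
            exact ⟨m, by simp only [S, Finset.mem_filter, Finset.mem_range]; exact ⟨hm2, hm1, hm3⟩⟩
          have hmem := S.max'_mem hS
          have hmem' : S.max' hS < j ∧ i < S.max' hS ∧ P i (S.max' hS) := by
            simpa only [S, Finset.mem_filter, Finset.mem_range] using hmem
          refine ⟨S.max' hS, hmem'.2.1, hmem'.1, Or.inl ⟨hmem'.2.2, ?_⟩⟩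
          intro m' hm1 hm2 hm3
          have : m' ∈ S := by
            simp only [S, Finset.mem_filter, Finset.mem_range]
            exact ⟨hm2, by omega, hm3⟩
          have := S.le_max' m' this
          omega
        · refine ⟨i + 1, by omega, by omega, Or.inr ⟨rfl, ?_⟩⟩
          intro m' hm1 hm2 hm3
          exact hex ⟨m', hm1, hm2, hm3⟩
      obtain ⟨c, hca, hcb⟩ := third a b
      obtain ⟨k1, hk1i, hk1m, hk1⟩ := ih (m - i - 1) (by omega) i m (by omega) a c (Ne.symm hca)
      obtain ⟨k2, hk2m, hk2j, hk2⟩ := ih (j - m - 1) (by omega) m j (by omega) c b hcb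
      refine ⟨fun x => if x ≤ m then k1 x else k2 x, ?_, ?_, ?_⟩
      · simp only
        rw [if_pos (by omega), hk1i]
      · simp only
        rw [if_neg (by omega), hk2j]
      · intro p q hp hip hqj
        have hpq := h1 p q hp
        simp only
        by_cases hqm : q ≤ m
        · rw [if_pos (by omega), if_pos hqm]
          exact hk1 p q hp hip hqm
        · rw [if_neg hqm]
          by_cases hpm : m ≤ p
          · have e : (if p ≤ m then k1 p else k2 p) = k2 p := by
              split_ifs with h
              · have : p = m := by omega
                rw [this, hk1m, hk2m]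
              · rfl
            rw [e]
            exact hk2 p q hp hpm hqj
          · rw [if_pos (by omega)]
            by_cases hpi : p = i
            · subst hpi
              have hqj' : q = j := by
                by_contra hne
                have hlt : q < j := by omega
                rcases hm with ⟨-, h⟩ | ⟨-, h⟩
                · exact h q (by omega) hlt hp
                · exact h q hpq hlt hp
              rw [hk1i, hqj', hk2j]
              exact hab
            · exfalso
              rcases hm with ⟨h, -⟩ | ⟨h, -⟩
              · exact h2 i m p q h hp (by omega) (by omega) (by omega)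
              · omega

end OUTP

theorem outp : OUTPStmt := by
  intro P N h1 h2
  obtain ⟨k, -, -, hk⟩ := OUTP.claim P (fun i j h => (h1 i j h).1) h2 N 0 (N + 1) (by omega) 0 1 (by decide)
  refine ⟨k, fun i j h => hk i j h (Nat.zero_le _) ?_⟩
  have := (h1 i j h).2
  omega

end Pool.BD
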