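import Pool.Agent.H56.BD.StmtsN

/-! Boolean dimension, block N: modules RCH, RCL, K0 (helper5). -/

set_option autoImplicit false

namespace Pool.BD

open Relation

namespace RCH

variable {V : Type} {G : SimpleGraph V} {rk : V → ℕ} {H : Set V} {q : V} {Q : Set V} {L R : Ct V}

theorem root_rank (ok : NIok G rk H q Q L R) {u : V} (hu : u ∈ H) : rk q ≤ rk u :=
  Anc.rank ok.parL (ok.isL.root_anc ok.parL u hu)

theorem head_ne (ok : NIok G rk H q Q L R) {u v : V} (hu : u ∈ H) (ha : Ar G rk u v) : v ≠ q := by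
  rintro rfl
  have h1 := root_rank ok hu
  have h2 := ha.2
  omega

/-- the dart at the head of a non-tree arc -/
theorem dn_head (ok : NIok G rk H q Q L R) {u v : V} (hu : u ∈ H) (hv : v ∈ H) (ha : Ar G rk u v)
    (hp : L.par v ≠ u) : Dn G H q Q L v u :=
  ⟨hv, ha.1.symm, fun h => absurd h (head_ne ok hu ha), fun _ h => hp h.symm⟩

/-- the dart at the tail of an arc -/
theorem dn_tail (ok : NIok G rk H q Q L R) {u v : V} (hu : u ∈ H) (hv : v ∈ H) (ha : Ar G rk u v) :
    Dn G H q Q L u v :=
  ⟨hu, ha.1, fun h => ok.isL.QH v hv (h ▸ ha.1), fun h1 h2 => by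
    have h3 := ok.parL u hu h1
    rw [← h2] at h3
    have h4 := ha.2
    omega⟩

theorem arc (ok : NIok G rk H q Q L R) {u v : V} (hu : u ∈ H) (hv : v ∈ H) (ha : Ar G rk u v) :
    L.hi v < L.hi u := by
  have hvq := head_ne ok hu ha
  by_cases hp : L.par v = u
  · have := ok.isL.ch v hv hvq
    rw [hp] at this
    exact this.2.2.2
  · have h1 := ok.left u hu v hv ha hp
    have h2 := ok.isL.dn _ _ (dn_head ok hu hv ha hp)
    have h3 := ok.isL.dn _ _ (dn_tail ok hu hv ha)
    have hne : u ≠ v := fun h => by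
      have := ha.2
      rw [h] at this
      omega
    rcases ok.isL.tri ok.parL u hu v hv with h4 | h4 | h4 | h4
    · exact (ok.isL.anc_block h4 hne).2
    · have := Anc.rank ok.parL h4
      have := ha.2
      omega
    · omega
    · have := ok.isL.lh u hu
      omega

theorem path (ok : NIok G rk H q Q L R) (up : Up G rk H q) {x y : V} (hx : x ∈ H) (hy : y ∈ H)
    (hne : x ≠ y) (h : Re G rk x y) : L.hi y < L.hi x := by
  by_cases hxq : x = q
  · subst hxq
    exact (ok.isL.anc_block (ok.isL.root_anc ok.parL y hy) hne).2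
  · have key : ∀ z, Re G rk x z → z ∈ H ∧ z ≠ q ∧ (z = x ∨ L.hi z < L.hi x) := by
      intro z hz
      induction hz with
      | refl => exact ⟨hx, hxq, Or.inl rfl⟩
      | @tail b c _ h2 ih =>
        obtain ⟨h3, h4, h5⟩ := ih
        have h6 := up b h3 h4 c h2
        have h7 := arc ok h3 h6 h2
        refine ⟨h6, head_ne ok h3 h2, Or.inr ?_⟩
        rcases h5 with h5 | h5
        · rw [h5] at h7
          exact h7
        · omega
    rcases (key y h).2.2 with h1 | h1
    · exact absurd h1.symm hne
    · exact h1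

end RCH

theorem rch : RCH := by
  intro V G rk H q Q L R hN x hx y hy hne h
  refine ⟨RCH.path hN.ok hN.up hx hy hne h, ?_⟩
  have := RCH.path hN.ok.mir hN.up hx hy hne h
  simp only [Ct.mir] at this
  omega

end Pool.BD
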