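import Pool.Agent.H5.BD.RCH

/-! Boolean dimension, block N: module RCL (helper5). -/

set_option autoImplicit false

namespace Pool.BD

open Relation

theorem rcl (h1 : RCH) : RCL := by
  intro V G rk H q Q L R hN x hx y hy h
  by_cases hne : x = y
  · subst hne
    exact ⟨Or.inl ReflTransGen.refl, Or.inl ReflTransGen.refl⟩
  · obtain ⟨h2, h3⟩ := h1 V G rk H q Q L R hN x hx y hy hne h
    have h4 := Re.rank_lt h hne
    constructor
    · rcases hN.ok.isL.tri hN.ok.parL x hx y hy with h5 | h5 | h5 | h5
      · exact Or.inl h5
      · have := Anc.rank hN.ok.parL h5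
        omega
      · have := hN.ok.isL.lh y hy
        omega
      · exact Or.inr h5
    · rcases hN.ok.isR.tri hN.ok.parR x hx y hy with h5 | h5 | h5 | h5
      · exact Or.inl h5
      · have := Anc.rank hN.ok.parR h5
        omega
      · exact Or.inr h5
      · have := hN.ok.isR.lh y hy
        omega

end Pool.BD
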