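import Pool.Agent.H57.BD.Stmts

/-! Boolean dimension, block C: module STEP (helper5). -/

set_option autoImplicit false

namespace Pool.BD

namespace STEP

/-- the number of points of `P` below `x` -/
noncomputable def rk (P : Set ℕ) (x : ℕ) : ℕ := {p | p ∈ P ∧ p < x}.ncard

theorem fin (P : Set ℕ) (x : ℕ) : {p | p ∈ P ∧ p < x}.Finite :=
  (Set.finite_lt_nat x).subset fun _ hp => hp.2

theorem rk_mono (P : Set ℕ) {x y : ℕ} (h : x ≤ y) : rk P x ≤ rk P y :=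
  Set.ncard_le_ncard (fun _ hp => ⟨hp.1, lt_of_lt_of_le hp.2 h⟩) (fin P y)

theorem lt_of_rk (P : Set ℕ) {x y : ℕ} (h : rk P x < rk P y) : x < y := by
  by_contra hcon
  have := rk_mono P (not_lt.1 hcon)
  omega

theorem rk_eq (P : Set ℕ) {x y : ℕ} (h : x ≤ y) (hno : ∀ p ∈ P, ¬ (x ≤ p ∧ p < y)) : rk P x = rk P y := by
  apply le_antisymm (rk_mono P h)
  refine Set.ncard_le_ncard (fun p hp => ⟨hp.1, ?_⟩) (fin P x)
  by_contra hcon
  exact hno p hp.1 ⟨not_lt.1 hcon, hp.2⟩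

theorem no_of_rk (P : Set ℕ) {x y : ℕ} (h : rk P x = rk P y) : ∀ p ∈ P, ¬ (x ≤ p ∧ p < y) := by
  intro p hp ⟨h1, h2⟩
  have hsub : {q | q ∈ P ∧ q < x} ⊆ {q | q ∈ P ∧ q < y} := fun _ hq => ⟨hq.1, by have := hq.2; omega⟩
  have : rk P x < rk P y := by
    apply Set.ncard_lt_ncard _ (fin P y)
    refine ⟨hsub, fun hcon => ?_⟩
    have := (hcon (show p ∈ {q | q ∈ P ∧ q < y} from ⟨hp, h2⟩)).2
    omega
  omega

/-- colouring of the ranks -/
theorem clr (h1 : OUTPStmt) {ι : Type} [Finite ι] (P : Set ℕ) (a b : ι → ℕ) (hab : ∀ i, a i < b i)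
    (hnc : ∀ i j, a i < a j → a j < b i → b i < b j → False) :
    ∃ k : ℕ → Fin 3, ∀ z, k (rk P (a z)) = k (rk P (b z)) → ∀ p ∈ P, ¬ (a z ≤ p ∧ p < b z) := by
  have hN : ∃ N : ℕ, ∀ i, rk P (b i) ≤ N := by
    cases nonempty_fintype ι
    refine ⟨∑ i, rk P (b i), fun i => ?_⟩
    exact Finset.single_le_sum (f := fun i => rk P (b i)) (fun i _ => Nat.zero_le _) (Finset.mem_univ i)
  obtain ⟨N, hN⟩ := hN
  obtain ⟨k, hk⟩ := h1 (fun i j => i < j ∧ ∃ z, rk P (a z) = i ∧ rk P (b z) = j) N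
    (by
      rintro i j ⟨hij, z, -, rfl⟩
      exact ⟨hij, hN z⟩)
    (by
      rintro i j i' j' ⟨hij, z, rfl, rfl⟩ ⟨hij', z', rfl, rfl⟩ h2 h3 h4
      exact hnc z z' (lt_of_rk P h2) (lt_of_rk P h3) (lt_of_rk P h4))
  refine ⟨k, fun z hz => ?_⟩
  by_cases heq : rk P (a z) = rk P (b z)
  · exact no_of_rk P heq
  · exfalso
    have hle := rk_mono P (hab z).le
    exact hk _ _ ⟨lt_of_le_of_ne hle heq, z, rfl, rfl⟩ hz

end STEP

open STEP in
theorem step (h1 : OUTPStmt) : STEPStmt := by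
  classical
  intro ι _ s t r hI W Z e hW hZ hov
  let mu : ι → Prop := fun w => ∃ p ∈ e, s w < p ∧ p < t w
  let mv : ι → Prop := fun w => ∃ p ∈ e, t w < p ∧ p < r w
  have hWm : ∀ w ∈ W, mu w ∨ mv w := hW
  let PU : Set ℕ := {p | ∃ w ∈ W, mu w ∧ (p = s w ∨ p = t w)}
  let PUp : Set ℕ := {p | ∃ w ∈ W, p = s w ∨ (mu w ∧ p = t w)}
  let PVp : Set ℕ := {p | ∃ w ∈ W, p = r w ∨ (mv w ∧ p = t w)}
  -- order facts
  have hUle : ∀ i j, s i < s j → s j < t i → t j < t i := by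
    intro i j h2 h3
    rcases lt_trichotomy (t i) (t j) with h | h | h
    · exact (hI.U i j h2 h3 h).elim
    · have := hI.tinj h
      subst this
      omega
    · exact h
  have hUge : ∀ i j, s i < t j → t j < t i → s i < s j := by
    intro i j h2 h3
    rcases lt_trichotomy (s j) (s i) with h | h | h
    · exact (hI.U j i h h2 h3).elim
    · have := hI.sinj h
      subst this
      omega
    · exact h
  have hVle : ∀ i j, t i < t j → t j < r i → r j < r i := by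
    intro i j h2 h3
    rcases lt_trichotomy (r i) (r j) with h | h | h
    · exact (hI.V i j h2 h3 h).elim
    · have := hI.rinj h
      subst this
      omega
    · exact h
  have hVge : ∀ i j, t i < r j → r j < r i → t i < t j := by
    intro i j h2 h3
    rcases lt_trichotomy (t j) (t i) with h | h | h
    · exact (hI.V j i h h2 h3).elim
    · have := hI.tinj h
      subst this
      omega
    · exact h
  -- no point of `e` inside an item of `Z`: consequences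
  have hnoU : ∀ z ∈ Z, ∀ w, mu w → s z ≤ s w → t w ≤ r z → False := by
    rintro z hz w ⟨p, hp, h2, h3⟩ h4 h5
    exact hZ z hz p hp ⟨by omega, by omega⟩
  have hnoV : ∀ z ∈ Z, ∀ w, mv w → s z ≤ t w → r w ≤ r z → False := by
    rintro z hz w ⟨p, hp, h2, h3⟩ h4 h5
    exact hZ z hz p hp ⟨by omega, by omega⟩
  have hdisj : ∀ w ∈ W, w ∉ Z := by
    intro w hw hz
    rcases hWm w hw with h | h
    · exact hnoU w hz w h le_rfl (hI.tr w).le
    · exact hnoV w hz w h (hI.st w).le le_rfl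
  -- (d)
  have hdU : ∀ z ∈ Z, ∀ p ∈ PU, ¬ (s z < p ∧ p < t z) := by
    rintro z hz p ⟨w, hw, hm, rfl | rfl⟩ ⟨h2, h3⟩
    · have h4 := hUle z w h2 h3
      exact hnoU z hz w hm h2.le (by have := hI.tr z; omega)
    · have h4 := hUge z w h2 h3
      exact hnoU z hz w hm h4.le (by have := hI.tr z; omega)
  have hdV : ∀ z ∈ Z, ∀ w ∈ W, mv w → ¬ (t z < t w ∧ t w < r z) := by
    rintro z hz w hw hm ⟨h2, h3⟩
    have h4 := hVle z w h2 h3
    exact hnoV z hz w hm (by have := hI.st z; omega) h4.le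
  obtain ⟨k1, hk1⟩ := clr h1 PU t r hI.tr hI.V
  obtain ⟨k2, hk2⟩ := clr h1 PVp s t hI.st hI.U
  obtain ⟨k3, hk3⟩ := clr h1 PUp t r hI.tr hI.V
  let H : ι → Prop := fun z => ∀ p ∈ PVp, ¬ (s z < p ∧ p < t z)
  refine ⟨fun z => (k1 (rk PU (t z)), k2 (rk PVp (t z)), k3 (rk PUp (t z)), if H z then 0 else 1), ?_⟩
  intro x hx y hy hxy1 hxy2 hxy3 hcol
  simp only [Prod.mk.injEq] at hcol
  obtain ⟨hc1, hc2, hc3, hc4⟩ := hcol
  -- 1.
  have a1 : rk PU (r x) = rk PU (t y) :=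
    rk_eq PU hxy3.le fun p hp h => hdU y hy p hp ⟨by omega, h.2⟩
  have A1 : ∀ p ∈ PU, ¬ (t x ≤ p ∧ p < r x) := hk1 x (by rw [hc1, a1])
  -- 2.
  have A2 : ∀ p ∈ PVp, ¬ (t x < p ∧ p < r x) := by
    rintro p ⟨w, hw, rfl | ⟨hm, rfl⟩⟩ ⟨h2, h3⟩
    · have h4 := hVge x w h2 h3
      rcases hWm w hw with hm | hm
      · exact A1 (t w) ⟨w, hw, hm, Or.inr rfl⟩ ⟨h4.le, by have := hI.tr w; omega⟩
      · exact hnoV x hx w hm (by have := hI.st x; omega) h3.le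
    · exact hdV x hx w hw hm ⟨h2, h3⟩
  have hne : ∀ p ∈ PVp, p ≠ t x := by
    rintro p ⟨w, hw, rfl | ⟨hm, rfl⟩⟩ h2
    · exact hI.ntr x w h2.symm
    · have := hI.tinj h2
      subst this
      exact hdisj w hw hx
  have a2 : rk PVp (t x) = rk PVp (s y) :=
    rk_eq PVp hxy1.le fun p hp h => A2 p hp ⟨by have := hne p hp; omega, by omega⟩
  have A3 : ∀ p ∈ PVp, ¬ (s y ≤ p ∧ p < t y) := hk2 y (by rw [← a2, hc2])
  have Hy : H y := fun p hp h => A3 p hp ⟨h.1.le, h.2⟩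
  have Hx : H x := by
    by_contra hcon
    rw [if_neg hcon, if_pos Hy] at hc4
    exact absurd hc4 (by decide)
  -- 3.
  have A4 : ∀ p ∈ PUp, ¬ (s y < p ∧ p < t y) := by
    rintro p ⟨w, hw, rfl | ⟨hm, rfl⟩⟩ ⟨h2, h3⟩
    · have h4 := hUle y w h2 h3
      rcases hWm w hw with hm | hm
      · exact hnoU y hy w hm h2.le (by have := hI.tr y; omega)
      · exact Hy (t w) ⟨w, hw, Or.inr ⟨hm, rfl⟩⟩ ⟨by have := hI.st w; omega, h4⟩
    · exact hdU y hy (t w) ⟨w, hw, hm, Or.inr rfl⟩ ⟨h2, h3⟩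
  have a3 : rk PUp (r x) = rk PUp (t y) :=
    rk_eq PUp hxy3.le fun p hp h => A4 p hp ⟨by omega, h.2⟩
  have A5 : ∀ p ∈ PUp, ¬ (t x ≤ p ∧ p < r x) := hk3 x (by rw [hc3, a3])
  -- 4.
  obtain ⟨w, hw, ⟨h2, h3, h4⟩ | ⟨h2, h3, h4⟩⟩ := hov x hx
  · have h5 : s w < t x := by
      by_contra hcon
      exact A5 (s w) ⟨w, hw, Or.inl rfl⟩ ⟨not_lt.1 hcon, h3⟩
    have h6 := hUle x w h2 h5
    rcases hWm w hw with hm | hm
    · exact hnoU x hx w hm h2.le (by have := hI.tr x; omega)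
    · exact Hx (t w) ⟨w, hw, Or.inr ⟨hm, rfl⟩⟩ ⟨by have := hI.st w; omega, h6⟩
  · have h5 : t x < r w := by
      by_contra hcon
      have h6 : r w ≠ t x := fun h => hI.ntr x w h.symm
      exact Hx (r w) ⟨w, hw, Or.inl rfl⟩ ⟨h3, by omega⟩
    have h6 := hVge x w h5 h4
    rcases hWm w hw with hm | hm
    · exact A5 (t w) ⟨w, hw, Or.inr ⟨hm, rfl⟩⟩ ⟨h6.le, by have := hI.tr w; omega⟩
    · exact hnoV x hx w hm (by have := hI.st x; omega) h4.le

end Pool.BD
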